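import Pool.Agent.V11120.Imp.Girth

/-!
# Many vertices in a critical graph of large girth
-/

set_option autoImplicit false

namespace Pool.Agent.V11120.Imp

open Finset Classical

variable {V : Type} [Fintype V] {H : SimpleGraph V}

/-- the neighbours -/
noncomputable def Nb (H : SimpleGraph V) (v : V) : Finset V := univ.filter (fun w => H.Adj v w)

theorem mem_Nb {v w : V} : w ∈ Nb H v ↔ H.Adj v w := by
  simp [Nb]

/-- the structure of critical graphs: `S` is the vertex set -/
structure Crit (H : SimpleGraph V) (S : Finset V) (k : ℕ) : Prop where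
  mem : ∀ u v, H.Adj u v → v ∈ S
  two : ∀ v ∈ S, 2 ≤ (Nb H v).card
  hub : ∀ v ∈ S, (Nb H v).card ≤ k → ∃ w, H.Adj v w ∧ k + 1 ≤ (Nb H w).card

theorem exists_hub {S : Finset V} {k : ℕ} (hc : Crit H S k) {p q : V} (h : H.Adj p q) :
    ∃ (l₁ : List V) (y z : V) (l₀ : List V), p :: q :: l₀ = l₁ ++ [y, z] ∧ l₀.length ≤ 2 ∧
      NB H (p :: q :: l₀) ∧ k + 1 ≤ (Nb H z).card := by
  by_cases hq : k + 1 ≤ (Nb H q).card
  · exact ⟨[], p, q, [], rfl, by simp, h, hq⟩
  · obtain ⟨w, hw, hwk⟩ := hc.hub q (hc.mem p q h) (by omega)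
    by_cases hwp : w = p
    · have h2 := hc.two q (hc.mem p q h)
      have hp : p ∈ Nb H q := mem_Nb.2 h.symm
      have h3 : 0 < ((Nb H q).erase p).card := by
        rw [card_erase_of_mem hp]
        omega
      obtain ⟨x, hx⟩ := card_pos.1 h3
      rw [mem_erase, mem_Nb] at hx
      by_cases hxk : k + 1 ≤ (Nb H x).card
      · exact ⟨[p], q, x, [x], rfl, by simp, ⟨h, hx.1.symm, hx.2⟩, hxk⟩
      · obtain ⟨w', hw', hwk'⟩ := hc.hub x (hc.mem q x hx.2) (by omega)
        refine ⟨[p, q], x, w', [x, w'], rfl, by simp, ⟨h, hx.1.symm, hx.2, ?_, hw'⟩, hwk'⟩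
        rintro rfl
        exact hq hwk'
    · exact ⟨[p], q, w, [w], rfl, by simp, ⟨h, fun h' => hwp h'.symm, hw⟩, hwk⟩

theorem NB.append_adj {l₁ : List V} {y z : V} (h : NB H (l₁ ++ [y, z])) : H.Adj y z := by
  have h1 := h.reverse
  rw [List.reverse_append] at h1
  have h2 : NB H (z :: y :: l₁.reverse) := h1
  exact h2.adj.symm

theorem branch {S : Finset V} {k ℓ : ℕ} (hc : Crit H S k) (hg : (ℓ : ℕ∞) ≤ H.egirth) (r : ℕ) :
    6 * r ≤ ℓ + 3 → ∀ p q : V, H.Adj p q → ∃ T : Finset V, k ^ r ≤ T.card ∧ ∀ t ∈ T, t ∈ S ∧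
      ∃ l, NB H (p :: q :: l) ∧ l.length ≤ 3 * r ∧ t ∈ q :: l := by
  induction r with
  | zero =>
    intro _ p q h
    refine ⟨{q}, by simp, ?_⟩
    intro t ht
    rw [mem_singleton] at ht
    subst ht
    exact ⟨hc.mem p _ h, [], h, by simp, by simp⟩
  | succ r ih =>
    intro hr p q h
    obtain ⟨l₁, y, z, l₀, e, hl, hnb, hz⟩ := exists_hub hc h
    rw [e] at hnb
    have hyz := hnb.append_adj
    have hT : ∀ x : V, ∃ T : Finset V, H.Adj z x → (k ^ r ≤ T.card ∧ ∀ t ∈ T, t ∈ S ∧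
        ∃ l, NB H (z :: x :: l) ∧ l.length ≤ 3 * r ∧ t ∈ x :: l) := by
      intro x
      by_cases hx : H.Adj z x
      · obtain ⟨T, hT⟩ := ih (by omega) z x hx
        exact ⟨T, fun _ => hT⟩
      · exact ⟨∅, fun h => absurd h hx⟩
    choose T hT using hT
    refine ⟨((Nb H z).erase y).biUnion T, ?_, ?_⟩
    · rw [card_biUnion]
      · calc k ^ (r + 1) = k * k ^ r := by ring
          _ ≤ ((Nb H z).erase y).card * k ^ r := by
            apply Nat.mul_le_mul_right
            rw [card_erase_of_mem (mem_Nb.2 hyz.symm)]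
            omega
          _ = ∑ x ∈ (Nb H z).erase y, k ^ r := by rw [sum_const, smul_eq_mul]
          _ ≤ ∑ x ∈ (Nb H z).erase y, (T x).card := by
            apply sum_le_sum
            intro x hx
            rw [mem_erase, mem_Nb] at hx
            exact (hT x hx.2).1
      · intro x hx x' hx' hne
        rw [mem_coe, mem_erase, mem_Nb] at hx hx'
        rw [Function.onFun, disjoint_left]
        intro t ht ht'
        obtain ⟨_, l, g1, g2, g3⟩ := (hT x hx.2).2 t ht
        obtain ⟨_, l', g1', g2', g3'⟩ := (hT x' hx'.2).2 t ht'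
        have h5 := (g1.join g1' hne).nodup hg (by
          simp only [List.length_append, List.length_reverse, List.length_cons]
          omega)
        rw [List.nodup_append] at h5
        exact h5.2.2 t (List.mem_reverse.2 g3) t (List.mem_cons_of_mem _ g3') rfl
    · intro t ht
      rw [mem_biUnion] at ht
      obtain ⟨x, hx, hxt⟩ := ht
      rw [mem_erase, mem_Nb] at hx
      obtain ⟨g0, l, g1, g2, g3⟩ := (hT x hx.2).2 t hxt
      refine ⟨g0, l₀ ++ x :: l, ?_, ?_, ?_⟩
      · have e' : p :: q :: (l₀ ++ x :: l) = l₁ ++ y :: z :: x :: l := by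
          calc p :: q :: (l₀ ++ x :: l) = (p :: q :: l₀) ++ x :: l := rfl
            _ = (l₁ ++ [y, z]) ++ x :: l := by rw [e]
            _ = l₁ ++ y :: z :: x :: l := by simp
        rw [e']
        exact NB.append hnb ⟨hyz, hx.1.symm, g1⟩
      · simp only [List.length_append, List.length_cons]
        omega
      · rw [List.mem_cons, List.mem_append]
        exact Or.inr (Or.inr g3)

theorem many {S : Finset V} {k ℓ r : ℕ} (hc : Crit H S k) (hg : (ℓ : ℕ∞) ≤ H.egirth)
    (hr : 6 * r + 3 ≤ ℓ) (hS : S.Nonempty) : (k + 1) * k ^ r ≤ S.card := by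
  obtain ⟨v, hv⟩ := hS
  have hex : ∃ u, k + 1 ≤ (Nb H u).card := by
    by_cases h : k + 1 ≤ (Nb H v).card
    · exact ⟨v, h⟩
    · obtain ⟨w, _, hw⟩ := hc.hub v hv (by omega)
      exact ⟨w, hw⟩
  obtain ⟨z, hz⟩ := hex
  have hT : ∀ x : V, ∃ T : Finset V, H.Adj z x → (k ^ r ≤ T.card ∧ ∀ t ∈ T, t ∈ S ∧
      ∃ l, NB H (z :: x :: l) ∧ l.length ≤ 3 * r ∧ t ∈ x :: l) := by
    intro x
    by_cases hx : H.Adj z x
    · obtain ⟨T, hT⟩ := branch hc hg r (by omega) z x hx
      exact ⟨T, fun _ => hT⟩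
    · exact ⟨∅, fun h => absurd h hx⟩
  choose T hT using hT
  have h1 : ((Nb H z).biUnion T) ⊆ S := by
    intro t ht
    rw [mem_biUnion] at ht
    obtain ⟨x, hx, hxt⟩ := ht
    rw [mem_Nb] at hx
    exact ((hT x hx).2 t hxt).1
  refine le_trans ?_ (card_le_card h1)
  rw [card_biUnion]
  · calc (k + 1) * k ^ r ≤ (Nb H z).card * k ^ r := Nat.mul_le_mul_right _ hz
      _ = ∑ x ∈ Nb H z, k ^ r := by rw [sum_const, smul_eq_mul]
      _ ≤ ∑ x ∈ Nb H z, (T x).card := by
        apply sum_le_sum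
        intro x hx
        rw [mem_Nb] at hx
        exact (hT x hx).1
  · intro x hx x' hx' hne
    rw [mem_coe, mem_Nb] at hx hx'
    rw [Function.onFun, disjoint_left]
    intro t ht ht'
    obtain ⟨_, l, g1, g2, g3⟩ := (hT x hx).2 t ht
    obtain ⟨_, l', g1', g2', g3'⟩ := (hT x' hx').2 t ht'
    have h5 := (g1.join g1' hne).nodup hg (by
      simp only [List.length_append, List.length_reverse, List.length_cons]
      omega)
    rw [List.nodup_append] at h5
    exact h5.2.2 t (List.mem_reverse.2 g3) t (List.mem_cons_of_mem _ g3') rfl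

end Pool.Agent.V11120.Imp
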