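import Mathlib

/-!
# Graphs on surfaces and colourings with an independent set and a part of bounded degree
-/

set_option autoImplicit false

namespace Pool.Agent.V11120.Imp

open Equiv

/-- `G` is `(0, k)`-colourable: the vertices can be partitioned into an independent set `I` and a
set that induces a subgraph of maximum degree at most `k`. -/
def ZeroColorable {V : Type} (G : SimpleGraph V) (k : ℕ) : Prop :=
  ∃ I : Set V, (∀ u ∈ I, ∀ v ∈ I, ¬ G.Adj u v) ∧ ∀ v ∉ I, {w | w ∉ I ∧ G.Adj v w}.ncard ≤ k

/-- A rotation system with signatures for the graph `G`: it describes a cellular embedding of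
every component of `G` that has an edge on a closed surface, orientable or not. The darts
(directed edges) with the same first vertex are arranged in one cycle of `rot`, and `twisted`
tells which edges have signature `-1`. -/
structure Scheme {V : Type} (G : SimpleGraph V) where
  rot : Perm G.Dart
  rot_fst : ∀ d, (rot d).fst = d.fst
  cyclic : ∀ d d' : G.Dart, d.fst = d'.fst → rot.SameCycle d d'
  twisted : G.Dart → Bool
  twisted_symm : ∀ d, twisted d.symm = twisted d

variable {V : Type} {G : SimpleGraph V}

/-- In the mode `false` one turns to the next dart at the same vertex, in the mode `true` to the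
previous one. -/
def Scheme.turn (S : Scheme G) : Perm (G.Dart × Bool) where
  toFun x := (cond x.2 (S.rot.symm x.1) (S.rot x.1), x.2)
  invFun x := (cond x.2 (S.rot x.1) (S.rot.symm x.1), x.2)
  left_inv := by rintro ⟨d, s | s⟩ <;> simp
  right_inv := by rintro ⟨d, s | s⟩ <;> simp

/-- One goes to the other end of the edge; the mode changes along twisted edges. -/
def Scheme.pass (S : Scheme G) : Perm (G.Dart × Bool) where
  toFun x := (x.1.symm, xor x.2 (S.twisted x.1))
  invFun x := (x.1.symm, xor x.2 (S.twisted x.1))
  left_inv := by
    rintro ⟨d, s⟩
    simp [S.twisted_symm]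
  right_inv := by
    rintro ⟨d, s⟩
    simp [S.twisted_symm]

/-- The number of faces: face tracing traces every face twice, once in each direction. -/
noncomputable def Scheme.numFaces (S : Scheme G) : ℕ :=
  Nat.card (Quotient (Perm.SameCycle.setoid (S.turn * S.pass))) / 2

/-- The Euler genus of the embedding: the sum of `2 - (vertices - edges + faces)` over all
components that have an edge. -/
noncomputable def Scheme.eulerGenus (S : Scheme G) : ℤ :=
  2 * (Nat.card {C : G.ConnectedComponent // ∃ d : G.Dart, G.connectedComponentMk d.fst = C} : ℤ) -
    ((Nat.card {v : V // ∃ w, G.Adj v w} : ℤ) - (G.edgeSet.ncard : ℤ) + (S.numFaces : ℤ))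

/-- `G` embeds on some surface of Euler genus `g` (isolated vertices do not matter). -/
def EmbedsOn (G : SimpleGraph V) (g : ℕ) : Prop := ∃ S : Scheme G, S.eulerGenus ≤ g

end Pool.Agent.V11120.Imp
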