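import Pool.Agent.V11120.Maps.Comp

/-!
# Deleting edges from a combinatorial map
-/

set_option autoImplicit false
set_option linter.unusedSectionVars false

namespace Pool.Agent.V11120.Imp

open Equiv Module Pool.Agent.V11120.Maps

variable {D : Type} [Fintype D]

theorem finrank_le_eval {R : Type} [Fintype R] (A B : Submodule ℚ (D → ℚ)) (x : R → D)
    (h : ∀ f ∈ A, (∀ r, f (x r) = 0) → f ∈ B) : finrank ℚ A ≤ finrank ℚ B + Fintype.card R := by
  let φ : A →ₗ[ℚ] (R → ℚ) :=
    { toFun := fun f r => f.1 (x r)
      map_add' := fun f g => rfl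
      map_smul' := fun c f => rfl }
  have h1 := LinearMap.finrank_range_add_finrank_ker φ
  have h2 : finrank ℚ (LinearMap.range φ) ≤ Fintype.card R := by
    rw [← Module.finrank_fintype_fun_eq_card ℚ (η := R)]
    exact Submodule.finrank_le _
  have h3 : finrank ℚ (LinearMap.ker φ) ≤ finrank ℚ B := by
    refine LinearMap.finrank_le_finrank_of_injective (f :=
      ({ toFun := fun f => ⟨f.1.1, h f.1.1 f.1.2 (fun r => congrFun (LinearMap.mem_ker.1 f.2) r)⟩
         map_add' := fun f g => rfl
         map_smul' := fun c f => rfl } : LinearMap.ker φ →ₗ[ℚ] B)) ?_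
    intro f g hfg
    apply Subtype.ext
    apply Subtype.ext
    have h5 := congrArg Subtype.val hfg
    exact h5
  omega

theorem finrank_le_inf (A B : Submodule ℚ (D → ℚ)) (a b : D)
    (h : ∀ f ∈ A, f a = f b → f ∈ B) : finrank ℚ A ≤ finrank ℚ B + 1 := by
  let φ : A →ₗ[ℚ] ℚ :=
    { toFun := fun f => f.1 a - f.1 b
      map_add' := fun f g => by simp; ring
      map_smul' := fun c f => by simp; ring }
  have h1 := LinearMap.finrank_range_add_finrank_ker φ
  have h2 : finrank ℚ (LinearMap.range φ) ≤ 1 := by
    have := Submodule.finrank_le (LinearMap.range φ)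
    rwa [Module.finrank_self] at this
  have h3 : finrank ℚ (LinearMap.ker φ) ≤ finrank ℚ B := by
    refine LinearMap.finrank_le_finrank_of_injective (f :=
      ({ toFun := fun f => ⟨f.1.1, h f.1.1 f.1.2 (sub_eq_zero.1 (LinearMap.mem_ker.1 f.2))⟩
         map_add' := fun f g => rfl
         map_smul' := fun c f => rfl } : LinearMap.ker φ →ₗ[ℚ] B)) ?_
    intro f g hfg
    apply Subtype.ext
    apply Subtype.ext
    have h5 := congrArg Subtype.val hfg
    exact h5
  omega

theorem del_step {σ α α' : Perm D} [DecidableEq D] {a b : D} (hab : a ≠ b)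
    (h : α = α' * swap a b) :
    2 * finrank ℚ (Fix σ ⊓ Fix α' : Submodule ℚ (D → ℚ)) + numOrbits (σ * α) ≤
      2 * finrank ℚ (Fix σ ⊓ Fix α : Submodule ℚ (D → ℚ)) + numOrbits (σ * α') + 1 ∨
      ¬ (α' a = a ∧ α' b = b) := by
  by_cases hfix : α' a = a ∧ α' b = b
  swap
  · exact Or.inr hfix
  left
  rw [← finrank_Fix, ← finrank_Fix]
  have hα : ∀ d, α d = α' (swap a b d) := fun d => by rw [h]; rfl
  have hα' : ∀ d, α' d = α (swap a b d) := fun d => by rw [hα, swap_apply_self]
  have hsw : ∀ (f : D → ℚ), f a = f b → ∀ d, f (swap a b d) = f d := by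
    intro f hf d
    by_cases h1 : d = a
    · rw [h1, swap_apply_left, hf]
    · by_cases h2 : d = b
      · rw [h2, swap_apply_right, hf]
      · rw [swap_apply_of_ne_of_ne h1 h2]
  have hWU : ∀ f ∈ (Fix σ ⊓ Fix α' : Submodule ℚ (D → ℚ)), f a = f b →
      f ∈ (Fix σ ⊓ Fix α : Submodule ℚ (D → ℚ)) := by
    rintro f ⟨h1, h2⟩ hf
    refine ⟨h1, ?_⟩
    intro d
    rw [hα, h2, hsw f hf]
  by_cases hw : ∃ w ∈ (Fix σ ⊓ Fix α' : Submodule ℚ (D → ℚ)), w a ≠ w b
  · obtain ⟨w, ⟨hw1, hw2⟩, hw3⟩ := hw
    have hker : ∀ f ∈ Fix (σ * α), f a = f b := by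
      intro f hf
      have e1 : ∑ d, w d * f d = ∑ d, w (swap a b d) * f d := by
        rw [← Equiv.sum_comp (σ * α) (fun d => w d * f d)]
        refine Finset.sum_congr rfl fun d _ => ?_
        have e2 : f ((σ * α) d) = f d := hf d
        have e3 : w ((σ * α) d) = w (swap a b d) := by
          have : w ((σ * α) d) = w (σ (α d)) := rfl
          rw [this, hw1, hα, hw2]
        rw [e2, e3]
      have e4 : ∑ d, (w (swap a b d) - w d) * f d = 0 := by
        simp only [sub_mul]
        rw [Finset.sum_sub_distrib, e1, sub_self]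
      rw [← Finset.sum_subset (Finset.subset_univ {a, b}) (by
        intro d _ hd
        simp only [Finset.mem_insert, Finset.mem_singleton, not_or] at hd
        rw [swap_apply_of_ne_of_ne hd.1 hd.2]
        ring), Finset.sum_pair hab, swap_apply_left, swap_apply_right] at e4
      have e5 : (w b - w a) * (f a - f b) = 0 := by linarith
      rcases mul_eq_zero.1 e5 with h1 | h1
      · exact absurd (sub_eq_zero.1 h1).symm hw3
      · exact sub_eq_zero.1 h1
    have hlt : Fix (σ * α) < Fix (σ * α') := by
      refine lt_of_le_of_ne ?_ ?_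
      · intro f hf d
        have h1 := hf (swap a b d)
        have h2 : (σ * α) (swap a b d) = (σ * α') d := by
          show σ (α (swap a b d)) = σ (α' d)
          rw [hα']
        rw [h2] at h1
        rw [h1, hsw f (hker f hf)]
      · intro he
        have h1 : w ∈ Fix (σ * α') := by
          intro d
          have : w ((σ * α') d) = w (σ (α' d)) := rfl
          rw [this, hw1, hw2]
        rw [← he] at h1
        exact hw3 (hker w h1)
    have h1 := Submodule.finrank_lt_finrank_of_lt hlt
    have h2 := finrank_le_inf _ _ a b hWU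
    omega
  · push Not at hw
    have h1 := Submodule.finrank_mono (fun f hf => hWU f hf (hw f hf) :
      (Fix σ ⊓ Fix α' : Submodule ℚ (D → ℚ)) ≤ Fix σ ⊓ Fix α)
    have h2 := finrank_le_inf (Fix (σ * α)) (Fix (σ * α')) a b (by
      intro f hf hf'
      intro d
      have h1 := hf (swap a b d)
      have h2 : (σ * α) (swap a b d) = (σ * α') d := by
        show σ (α (swap a b d)) = σ (α' d)
        rw [hα']
      rw [h2] at h1
      rw [h1, hsw f hf'])
    omega

open Classical in
/-- the involution restricted to the closed set `K` -/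
noncomputable def restr (α : Perm D) (hα : ∀ d, α (α d) = d) (K : Finset D)
    (hK : ∀ d ∈ K, α d ∈ K) : Perm D where
  toFun d := if d ∈ K then α d else d
  invFun d := if d ∈ K then α d else d
  left_inv := by
    intro d
    by_cases h : d ∈ K
    · simp only [h, if_true, hK d h, hα]
    · simp only [h, if_false]
  right_inv := by
    intro d
    by_cases h : d ∈ K
    · simp only [h, if_true, hK d h, hα]
    · simp only [h, if_false]

open Classical in
theorem restr_mem {α : Perm D} {hα : ∀ d, α (α d) = d} {K : Finset D}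
    {hK : ∀ d ∈ K, α d ∈ K} {d : D} (h : d ∈ K) : restr α hα K hK d = α d := by
  show (if d ∈ K then α d else d) = α d
  rw [if_pos h]

open Classical in
theorem restr_notMem {α : Perm D} {hα : ∀ d, α (α d) = d} {K : Finset D}
    {hK : ∀ d ∈ K, α d ∈ K} {d : D} (h : d ∉ K) : restr α hα K hK d = d := by
  show (if d ∈ K then α d else d) = d
  rw [if_neg h]

theorem del {σ α : Perm D} (hα : ∀ d, α (α d) = d) (hne : ∀ d, α d ≠ d) (n : ℕ) :
    ∀ (K : Finset D) (hK : ∀ d ∈ K, α d ∈ K), Fintype.card D ≤ K.card + n →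
    4 * finrank ℚ (Fix σ ⊓ Fix (restr α hα K hK) : Submodule ℚ (D → ℚ)) +
      2 * numOrbits (σ * α) + K.card ≤
    4 * finrank ℚ (Fix σ ⊓ Fix α : Submodule ℚ (D → ℚ)) +
      2 * numOrbits (σ * restr α hα K hK) + Fintype.card D := by
  classical
  induction n with
  | zero =>
    intro K hK hn
    have hKu : K = Finset.univ := Finset.eq_univ_of_card K
      (le_antisymm (Finset.card_le_univ K) hn)
    have h1 : restr α hα K hK = α := by
      ext d
      rw [restr_mem (by rw [hKu]; exact Finset.mem_univ d)]
    rw [h1]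
    have := Finset.card_le_univ K
    omega
  | succ n ih =>
    intro K hK hn
    by_cases hKu : K = Finset.univ
    · exact ih K hK (by rw [hKu, Finset.card_univ]; omega)
    · obtain ⟨e, he⟩ : ∃ e, e ∉ K := by
        by_contra h
        push Not at h
        exact hKu (Finset.eq_univ_of_forall h)
      have he' : α e ∉ K := fun h => he (by rw [← hα e]; exact hK _ h)
      have hK' : ∀ d ∈ insert e (insert (α e) K), α d ∈ insert e (insert (α e) K) := by
        intro d hd
        simp only [Finset.mem_insert] at hd ⊢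
        rcases hd with rfl | rfl | hd
        · exact Or.inr (Or.inl rfl)
        · exact Or.inl (hα e)
        · exact Or.inr (Or.inr (hK d hd))
      have hcard : (insert e (insert (α e) K)).card = K.card + 2 := by
        rw [Finset.card_insert_of_notMem, Finset.card_insert_of_notMem he']
        simp only [Finset.mem_insert, not_or]
        exact ⟨(hne e).symm, he⟩
      have h1 := ih _ hK' (by rw [hcard]; omega)
      rw [hcard] at h1
      have h2 : restr α hα (insert e (insert (α e) K)) hK' = restr α hα K hK * swap e (α e) := by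
        ext d
        rw [Perm.mul_apply]
        by_cases hd : d = e
        · rw [hd, swap_apply_left, restr_mem (by simp), restr_notMem he']
        · by_cases hd' : d = α e
          · rw [hd', swap_apply_right, restr_mem (by simp), restr_notMem he, hα]
          · rw [swap_apply_of_ne_of_ne hd hd']
            by_cases hdK : d ∈ K
            · rw [restr_mem (by simp [hdK]), restr_mem hdK]
            · rw [restr_notMem (by simp [hdK, hd, hd']), restr_notMem hdK]
      rcases del_step (σ := σ) (hne e).symm h2 with h3 | h3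
      · omega
      · exact absurd ⟨restr_notMem he, restr_notMem he'⟩ h3

/-- every orbit has at least `ℓ` elements -/
theorem card_ge_of_period {K : Type} [Fintype K] {ρ : Perm K} {ℓ : ℕ}
    (h : ∀ x, ∀ L, 0 < L → (ρ ^ L) x = x → ℓ ≤ L) : ℓ * numOrbits ρ ≤ Fintype.card K := by
  classical
  haveI : Fintype (Quotient (Perm.SameCycle.setoid ρ)) := Fintype.ofFinite _
  rw [numOrbits, Nat.card_eq_fintype_card, mul_comm]
  have h1 : Fintype.card (Quotient (Perm.SameCycle.setoid ρ) × Fin ℓ) =
      Fintype.card (Quotient (Perm.SameCycle.setoid ρ)) * ℓ := by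
    rw [Fintype.card_prod, Fintype.card_fin]
  rw [← h1]
  refine Fintype.card_le_of_injective (fun p => (ρ ^ (p.2 : ℕ)) p.1.out) ?_
  rintro ⟨q, i⟩ ⟨q', j⟩ hpq
  have hpq' : (ρ ^ (i : ℕ)) q.out = (ρ ^ (j : ℕ)) q'.out := hpq
  have hs : ρ.SameCycle q.out q'.out := by
    refine ⟨(i : ℤ) - (j : ℤ), ?_⟩
    rw [sub_eq_neg_add, zpow_add, Perm.mul_apply, zpow_natCast, hpq', zpow_neg, zpow_natCast]
    exact (ρ ^ (j : ℕ)).symm_apply_apply _
  have hq : q = q' := by
    rw [← q.out_eq, ← q'.out_eq]
    exact Quotient.sound hs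
  subst hq
  have key : ∀ i j : ℕ, i < j → j < ℓ → (ρ ^ i) q.out = (ρ ^ j) q.out → False := by
    intro i j hij hj he
    have h2 : (ρ ^ (j - i)) ((ρ ^ i) q.out) = (ρ ^ i) q.out := by
      rw [← Perm.mul_apply, ← pow_add, Nat.sub_add_cancel hij.le, he]
    have := h _ (j - i) (by omega) h2
    omega
  rcases lt_trichotomy (i : ℕ) (j : ℕ) with h3 | h3 | h3
  · exact (key i j h3 j.2 hpq').elim
  · rw [Prod.mk.injEq]
    exact ⟨rfl, Fin.ext h3⟩
  · exact (key j i h3 i.2 hpq'.symm).elim

end Pool.Agent.V11120.Imp
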