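import Pool.Agent.V11120.Imp.Walk

/-!
# Colouring graphs of large girth on surfaces
-/

set_option autoImplicit false
set_option linter.unusedSectionVars false

namespace Pool.Agent.V11120.Imp

open Finset Classical

variable {V : Type} [Fintype V] {G : SimpleGraph V}

/-- the colouring property for an induced subgraph -/
def ColOn (G : SimpleGraph V) (k : ℕ) (X : Finset V) : Prop :=
  ∃ I : Finset V, I ⊆ X ∧ (∀ u ∈ I, ∀ v ∈ I, ¬ G.Adj u v) ∧
    ∀ v ∈ X \ I, ((X \ I).filter (fun w => G.Adj v w)).card ≤ k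

theorem crit_of_minimal {k : ℕ} (hk : 1 ≤ k) {X : Finset V} (hX : ¬ ColOn G k X)
    (hmin : ∀ Y, Y ⊂ X → ColOn G k Y) : Crit (sub G X) X k := by
  have main : ∀ v ∈ X, ∃ (a : V) (J : Finset V), a ∈ X ∧ a ∉ J ∧ G.Adj v a ∧ J ⊆ X ∧ v ∉ J ∧
      (k < (J.filter (fun w => G.Adj v w)).card ∨
        ∃ w ∈ J, G.Adj v w ∧ k ≤ (J.filter (fun z => G.Adj w z)).card) := by
    intro v hv
    obtain ⟨I, hI, hind, hdeg⟩ := hmin (X.erase v) (erase_ssubset hv)
    have hvI : v ∉ I := fun h => (mem_erase.1 (hI h)).1 rfl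
    have h1 : ∃ a ∈ I, G.Adj v a := by
      by_contra hno
      push Not at hno
      apply hX
      refine ⟨insert v I, ?_, ?_, ?_⟩
      · intro z hz
        rcases mem_insert.1 hz with rfl | hz
        · exact hv
        · exact (mem_erase.1 (hI hz)).2
      · intro z hz z' hz'
        rcases mem_insert.1 hz with e1 | hz <;> rcases mem_insert.1 hz' with e2 | hz'
        · rw [e1, e2]
          exact G.loopless.irrefl _
        · rw [e1]
          exact hno z' hz'
        · rw [e2]
          exact fun h => hno z hz h.symm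
        · exact hind z hz z' hz'
      · have e : X \ insert v I = X.erase v \ I := by
          ext z
          simp only [mem_sdiff, mem_insert, mem_erase, not_or]
          tauto
        rw [e]
        exact hdeg
    obtain ⟨a, haI, hva⟩ := h1
    refine ⟨a, X.erase v \ I, (mem_erase.1 (hI haI)).2, ?_, hva, ?_, ?_, ?_⟩
    · intro h
      exact (mem_sdiff.1 h).2 haI
    · intro z hz
      exact (mem_erase.1 (mem_sdiff.1 hz).1).2
    · intro h
      exact (mem_erase.1 (mem_sdiff.1 h).1).1 rfl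
    · by_contra hno
      push Not at hno
      obtain ⟨h2, h3⟩ := hno
      apply hX
      refine ⟨I, fun z hz => (mem_erase.1 (hI hz)).2, hind, ?_⟩
      have e : X \ I = insert v (X.erase v \ I) := by
        ext z
        simp only [mem_sdiff, mem_insert, mem_erase]
        constructor
        · intro h
          by_cases hz : z = v
          · exact Or.inl hz
          · exact Or.inr ⟨⟨hz, h.1⟩, h.2⟩
        · rintro (rfl | h)
          · exact ⟨hv, hvI⟩
          · exact ⟨h.1.2, h.2⟩
      intro w hw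
      rw [e, mem_insert] at hw
      rw [e, filter_insert]
      rcases hw with rfl | hw
      · rw [if_neg (G.loopless.irrefl _)]
        exact h2
      · by_cases hwv : G.Adj w v
        · rw [if_pos hwv]
          refine (card_insert_le _ _).trans ?_
          have := h3 w hw hwv.symm
          omega
        · rw [if_neg hwv]
          exact hdeg w hw
  have hNb : ∀ v ∈ X, ∀ w, w ∈ Nb (sub G X) v ↔ w ∈ X ∧ G.Adj v w := by
    intro v hv w
    rw [mem_Nb]
    exact ⟨fun h => h.2, fun h => ⟨hv, h⟩⟩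
  refine ⟨fun u v h => h.2.1, ?_, ?_⟩
  · intro v hv
    obtain ⟨a, J, haX, haJ, hva, hJ, hvJ, h⟩ := main v hv
    have h1 : ∃ w ∈ J, G.Adj v w := by
      rcases h with h | ⟨w, hw, hvw, _⟩
      · obtain ⟨w, hw⟩ := card_pos.1 (lt_of_le_of_lt (Nat.zero_le k) h)
        rw [mem_filter] at hw
        exact ⟨w, hw⟩
      · exact ⟨w, hw, hvw⟩
    obtain ⟨w, hwJ, hvw⟩ := h1
    have h2 : ({a, w} : Finset V) ⊆ Nb (sub G X) v := by
      intro z hz
      rw [mem_insert, mem_singleton] at hz
      rw [hNb v hv]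
      rcases hz with rfl | rfl
      · exact ⟨haX, hva⟩
      · exact ⟨hJ hwJ, hvw⟩
    have h3 := card_le_card h2
    rw [card_pair (by rintro rfl; exact haJ hwJ)] at h3
    exact h3
  · intro v hv hlow
    obtain ⟨a, J, haX, haJ, hva, hJ, hvJ, h⟩ := main v hv
    rcases h with h | ⟨w, hw, hvw, h⟩
    · exfalso
      have h2 : J.filter (fun w => G.Adj v w) ⊆ Nb (sub G X) v := by
        intro z hz
        rw [mem_filter] at hz
        rw [hNb v hv]
        exact ⟨hJ hz.1, hz.2⟩
      have := card_le_card h2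
      omega
    · refine ⟨w, ⟨hv, hJ hw, hvw⟩, ?_⟩
      have h2 : insert v (J.filter (fun z => G.Adj w z)) ⊆ Nb (sub G X) w := by
        intro z hz
        rw [hNb w (hJ hw)]
        rcases mem_insert.1 hz with rfl | hz
        · exact ⟨hv, hvw.symm⟩
        · rw [mem_filter] at hz
          exact ⟨hJ hz.1, hz.2⟩
      have h3 := card_le_card h2
      rw [card_insert_of_notMem (by
        rw [mem_filter]
        exact fun h => hvJ h.1)] at h3
      omega

theorem size_bound {X : Finset V} {k g : ℕ} (hk : 83 ≤ k) (hc : Crit (sub G X) X k)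
    (h : ∃ f : ℕ, ∑ v ∈ X, (Nb (sub G X) v).card ≤ 2 * g + 2 * X.card + f ∧
      7 * f ≤ 2 * ∑ v ∈ X, (Nb (sub G X) v).card) : X.card ≤ 29 * g := by
  set H := sub G X with hH
  set L := X.filter (fun v => (Nb H v).card ≤ k) with hL
  set B := X.filter (fun v => ¬ (Nb H v).card ≤ k) with hB
  have h1 : L.card + B.card = X.card := card_filter_add_card_filter_not _
  have h2 : ∑ v ∈ L, (Nb H v).card + ∑ v ∈ B, (Nb H v).card = ∑ v ∈ X, (Nb H v).card :=
    sum_filter_add_sum_filter_not _ _ _
  have h3 : 84 * B.card ≤ ∑ v ∈ B, (Nb H v).card := by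
    rw [mul_comm, ← smul_eq_mul, ← sum_const]
    apply sum_le_sum
    intro v hv
    rw [hB, mem_filter] at hv
    omega
  have h4 : ∑ v ∈ L, ((Nb H v).filter (fun w => w ∈ B)).card =
      ∑ u ∈ B, ((Nb H u).filter (fun w => w ∈ L)).card := by
    have e1 : ∀ v, (Nb H v).filter (fun w => w ∈ B) = B.filter (fun w => H.Adj v w) := by
      intro v
      ext w
      constructor
      · intro h
        obtain ⟨g1, g2⟩ := mem_filter.1 h
        exact mem_filter.2 ⟨g2, mem_Nb.1 g1⟩
      · intro h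
        obtain ⟨g1, g2⟩ := mem_filter.1 h
        exact mem_filter.2 ⟨mem_Nb.2 g2, g1⟩
    have e2 : ∀ v, (Nb H v).filter (fun w => w ∈ L) = L.filter (fun w => H.Adj w v) := by
      intro v
      ext w
      constructor
      · intro h
        obtain ⟨g1, g2⟩ := mem_filter.1 h
        exact mem_filter.2 ⟨g2, (mem_Nb.1 g1).symm⟩
      · intro h
        obtain ⟨g1, g2⟩ := mem_filter.1 h
        exact mem_filter.2 ⟨mem_Nb.2 g2.symm, g1⟩
    simp only [e1, e2]
    exact sum_card_bipartiteAbove_eq_sum_card_bipartiteBelow (fun v w => H.Adj v w)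
  have h5 : ∑ u ∈ B, ((Nb H u).filter (fun w => w ∈ L)).card ≤ ∑ v ∈ B, (Nb H v).card :=
    sum_le_sum fun v _ => card_filter_le _ _
  have h6 : 3 * L.card ≤ ∑ v ∈ L, (Nb H v).card +
      ∑ v ∈ L, ((Nb H v).filter (fun w => w ∈ B)).card := by
    rw [← sum_add_distrib, mul_comm, ← smul_eq_mul, ← sum_const]
    apply sum_le_sum
    intro v hv
    rw [hL, mem_filter] at hv
    have h7 := hc.two v hv.1
    obtain ⟨w, hw, hwk⟩ := hc.hub v hv.1 hv.2
    have h8 : 0 < ((Nb H v).filter (fun w => w ∈ B)).card := by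
      apply card_pos.2
      refine ⟨w, ?_⟩
      rw [mem_filter, mem_Nb, hB, mem_filter]
      refine ⟨hw, hc.mem v w hw, ?_⟩
      show ¬ (Nb H w).card ≤ k
      have : k + 1 ≤ (Nb H w).card := hwk
      omega
    omega
  obtain ⟨f, hf1, hf2⟩ := h
  omega

theorem colorable_of {k g ℓ : ℕ} (hk : 83 ≤ k) (hℓ : 7 ≤ ℓ) (hg : (ℓ : ℕ∞) ≤ G.egirth)
    (hemb : EmbedsOn G g) (hbig : 29 * g < (k + 1) * k ^ ((ℓ - 3) / 6)) : ZeroColorable G k := by
  have hcol : ColOn G k univ := by
    by_contra hno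
    have hex : ∃ n : ℕ, ∃ X : Finset V, X.card = n ∧ ¬ ColOn G k X := ⟨_, univ, rfl, hno⟩
    obtain ⟨X, hXn, hX⟩ := Nat.find_spec hex
    have hmin : ∀ Y, Y ⊂ X → ColOn G k Y := by
      intro Y hY
      by_contra hY'
      exact Nat.find_min hex (m := Y.card) (by
        rw [← hXn]
        exact card_lt_card hY) ⟨Y, rfl, hY'⟩
    have hc := crit_of_minimal (by omega) hX hmin
    have hne : X.Nonempty := by
      rw [nonempty_iff_ne_empty]
      rintro rfl
      apply hX
      exact ⟨∅, subset_rfl, by simp, by simp⟩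
    obtain ⟨S, hS⟩ := hemb
    obtain ⟨f, hf1, hf2⟩ := main_ineq S hS hg X hc.two
    have h1 := size_bound hk hc ⟨f, hf1, le_trans (Nat.mul_le_mul_right _ hℓ) hf2⟩
    have hg' : (ℓ : ℕ∞) ≤ (sub G X).egirth := hg.trans (SimpleGraph.egirth_anti (sub_le X))
    have h2 := many (r := (ℓ - 3) / 6) hc hg' (by omega) hne
    omega
  obtain ⟨I, _, hind, hdeg⟩ := hcol
  refine ⟨↑I, fun u hu v hv => hind u hu v hv, fun v hv => ?_⟩
  have h1 := hdeg v (by
    rw [mem_sdiff]
    exact ⟨mem_univ v, hv⟩)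
  have h2 : {w | w ∉ (↑I : Set V) ∧ G.Adj v w} = ↑((univ \ I).filter (fun w => G.Adj v w)) := by
    ext w
    simp
  rw [h2, Set.ncard_coe_finset]
  exact h1

end Pool.Agent.V11120.Imp
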