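import Mathlib

/-!
# Non-backtracking walks in graphs of large girth
-/

set_option autoImplicit false

namespace Pool.Agent.V11120.Imp

variable {V : Type} {G : SimpleGraph V}

/-- the list of vertices of a non-backtracking walk -/
def NB (G : SimpleGraph V) : List V → Prop
  | [] => True
  | [_] => True
  | [a, b] => G.Adj a b
  | a :: b :: c :: l => G.Adj a b ∧ a ≠ c ∧ NB G (b :: c :: l)

theorem NB.tail {a : V} {l : List V} (h : NB G (a :: l)) : NB G l := by
  match l, h with
  | [], _ => trivial
  | [b], _ => trivial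
  | b :: c :: l, h => exact h.2.2

theorem NB.adj {a b : V} {l : List V} (h : NB G (a :: b :: l)) : G.Adj a b := by
  match l, h with
  | [], h => exact h
  | c :: l, h => exact h.1

theorem NB.left {l₁ l₂ : List V} (h : NB G (l₁ ++ l₂)) : NB G l₁ := by
  induction l₁ with
  | nil => trivial
  | cons a l₁ ih =>
    match l₁, ih, h with
    | [], _, _ => trivial
    | [b], ih, h =>
      exact NB.adj (l := l₂) h
    | b :: c :: l, ih, h => exact ⟨h.1, h.2.1, ih h.2.2⟩

theorem NB.append {l₁ l₂ : List V} {y z : V} (h : NB G (l₁ ++ [y, z]))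
    (h' : NB G (y :: z :: l₂)) : NB G (l₁ ++ y :: z :: l₂) := by
  induction l₁ with
  | nil => exact h'
  | cons a l₁ ih =>
    have ih' := ih h.tail
    match l₁, h, ih' with
    | [], h, ih' => exact ⟨h.1, h.2.1, ih'⟩
    | [b], h, ih' => exact ⟨h.1, h.2.1, ih'⟩
    | b :: c :: l, h, ih' => exact ⟨h.1, h.2.1, ih'⟩

theorem NB.reverse {l : List V} (h : NB G l) : NB G l.reverse := by
  induction l with
  | nil => trivial
  | cons a l ih =>
    match l, ih, h with
    | [], _, _ => trivial
    | [b], _, h => exact SimpleGraph.Adj.symm h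
    | b :: c :: l, ih, h =>
      have h1 := ih h.2.2
      rw [List.reverse_cons, List.reverse_cons, List.append_assoc] at h1
      rw [List.reverse_cons, List.reverse_cons, List.reverse_cons, List.append_assoc,
        List.append_assoc]
      exact NB.append h1 ⟨h.2.2.adj.symm, h.2.1.symm, h.1.symm⟩

/-- two walks from `u` with different first steps -/
theorem NB.join {u x y : V} {l₁ l₂ : List V} (h₁ : NB G (u :: x :: l₁)) (h₂ : NB G (u :: y :: l₂))
    (hxy : x ≠ y) : NB G ((x :: l₁).reverse ++ u :: y :: l₂) := by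
  have h3 := h₁.reverse
  rw [List.reverse_cons, List.reverse_cons, List.append_assoc] at h3
  rw [List.reverse_cons, List.append_assoc]
  exact NB.append h3 ⟨h₁.adj.symm, hxy, h₂⟩

theorem exists_walk {b : V} (s : List V) : ∀ a : V, NB G (a :: (s ++ [b])) →
    ∃ w : G.Walk a b, w.support = a :: (s ++ [b]) := by
  induction s with
  | nil =>
    intro a h
    exact ⟨SimpleGraph.Walk.cons h SimpleGraph.Walk.nil, rfl⟩
  | cons c s ih =>
    intro a h
    obtain ⟨w, hw⟩ := ih c h.tail
    exact ⟨SimpleGraph.Walk.cons h.adj w, by rw [SimpleGraph.Walk.support_cons, hw]; rfl⟩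

theorem exists_cycle {a : V} {s : List V} (h : NB G (a :: (s ++ [a]))) (hs : s.Nodup)
    (ha : a ∉ s) : ∃ w : G.Walk a a, w.IsCycle ∧ w.length = s.length + 1 := by
  match s, h, hs, ha with
  | [], h, _, _ => exact absurd h (G.loopless.irrefl a)
  | [b], h, _, _ => exact absurd rfl h.2.1
  | b :: c :: s, h, hs, ha =>
    have h1 : NB G (b :: ((c :: s) ++ [a])) := h.tail
    obtain ⟨q, hq⟩ := exists_walk s c h1.tail
    have hbc : G.Adj b c := h1.adj
    have hab : G.Adj a b := h.adj
    have hnd : (b :: c :: (s ++ [a])).Nodup := by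
      have : (b :: c :: (s ++ [a])) = (b :: c :: s) ++ [a] := rfl
      rw [this, List.nodup_append_comm]
      exact List.nodup_cons.2 ⟨ha, hs⟩
    refine ⟨SimpleGraph.Walk.cons hab (SimpleGraph.Walk.cons hbc q), ?_, ?_⟩
    · rw [SimpleGraph.Walk.cons_isCycle_iff]
      constructor
      · refine SimpleGraph.Walk.IsPath.mk' ?_
        rw [SimpleGraph.Walk.support_cons, hq]
        exact hnd
      · rw [SimpleGraph.Walk.edges_cons, List.mem_cons, not_or]
        constructor
        · rw [Sym2.eq_iff]
          rintro (⟨h2, _⟩ | ⟨h2, _⟩)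
          · exact hab.ne h2
          · apply ha
            rw [h2]
            simp
        · intro h2
          have h3 := SimpleGraph.Walk.snd_mem_support_of_mem_edges _ h2
          rw [hq] at h3
          exact (List.nodup_cons.1 hnd).1 h3
    · have : q.support.length = s.length + 2 := by
        rw [hq]
        simp
      rw [SimpleGraph.Walk.length_support] at this
      simp only [SimpleGraph.Walk.length_cons, List.length_cons]
      omega

/-- in a graph of girth at least `ℓ`, a non-backtracking walk with at most `ℓ` vertices is a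
path -/
theorem NB.nodup {ℓ : ℕ} (hg : (ℓ : ℕ∞) ≤ G.egirth) {l : List V} (h : NB G l)
    (hl : l.length ≤ ℓ) : l.Nodup := by
  induction l with
  | nil => exact List.nodup_nil
  | cons a l ih =>
    rw [List.length_cons] at hl
    have hnd := ih h.tail (by omega)
    rw [List.nodup_cons]
    refine ⟨fun ha => ?_, hnd⟩
    obtain ⟨s, t, rfl⟩ := List.append_of_mem ha
    have h1 : NB G (a :: (s ++ [a])) := by
      have h2 : a :: (s ++ a :: t) = (a :: (s ++ [a])) ++ t := by simp
      rw [h2] at h
      exact h.left
    have hs : s.Nodup := (List.nodup_append.1 hnd).1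
    have has : a ∉ s := by
      intro h3
      exact (List.nodup_append.1 hnd).2.2 a h3 a (by simp) rfl
    obtain ⟨w, hw, hwl⟩ := exists_cycle h1 hs has
    have h4 : G.egirth ≤ (w.length : ℕ∞) := iInf_le_of_le a (iInf_le_of_le w (iInf_le _ hw))
    have h5 : ((ℓ : ℕ) : ℕ∞) ≤ ((s.length + 1 : ℕ) : ℕ∞) := by
      rw [← hwl]
      exact hg.trans h4
    have h6 : ℓ ≤ s.length + 1 := by exact_mod_cast h5
    rw [List.length_append, List.length_cons] at hl
    omega

/-- sequences -/
theorem NB.of_seq (v : ℕ → V) (h1 : ∀ i, G.Adj (v i) (v (i + 1))) (h2 : ∀ i, v i ≠ v (i + 2))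
    (n : ℕ) : NB G ((List.range n).map v) := by
  induction n generalizing v with
  | zero => trivial
  | succ n ih =>
    have h3 := ih (fun i => v (i + 1)) (fun i => h1 (i + 1)) (fun i => h2 (i + 1))
    rw [List.range_succ_eq_map, List.map_cons, List.map_map]
    have h4 : List.map (v ∘ Nat.succ) (List.range n) = List.map (fun i => v (i + 1)) (List.range n) :=
      rfl
    rw [h4]
    match n, h3 with
    | 0, _ => trivial
    | 1, _ => exact h1 0
    | n + 2, h3 =>
      rw [List.range_succ_eq_map, List.map_cons] at h3 ⊢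
      rw [List.map_map, List.range_succ_eq_map, List.map_cons] at h3 ⊢
      exact ⟨h1 0, h2 0, h3⟩

/-- a closed non-backtracking sequence has length at least the girth -/
theorem girth_le_period {ℓ : ℕ} (hg : (ℓ : ℕ∞) ≤ G.egirth) (v : ℕ → V)
    (h1 : ∀ i, G.Adj (v i) (v (i + 1))) (h2 : ∀ i, v i ≠ v (i + 2)) {L : ℕ} (hL : 0 < L)
    (hc : v L = v 0) : ℓ ≤ L := by
  by_contra hlt
  push Not at hlt
  have h3 := (NB.of_seq v h1 h2 (L + 1)).nodup hg (by
    rw [List.length_map, List.length_range]
    omega)
  have h4 := (List.nodup_map_iff_inj_on (List.nodup_range)).1 h3 L (by simp) 0 (by simp) hc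
  omega

end Pool.Agent.V11120.Imp
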