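import Pool.Agent.V11120.Imp.Del
import Pool.Agent.V11120.Imp.Branch
import Pool.Agent.V11120.Imp.Defs

/-!
# The number of edges of a subgraph of an embedded graph
-/

set_option autoImplicit false
set_option linter.unusedSectionVars false

namespace Pool.Agent.V11120.Imp

open Equiv Module Pool.Agent.V11120.Maps

theorem card_le_numOrbits {D R : Type} [Fintype D] [Fintype R] (σ : Perm D) (c : D → R)
    (hinv : ∀ d, c (σ d) = c d) (hs : Function.Surjective c) : Fintype.card R ≤ numOrbits σ := by
  rw [numOrbits, ← Nat.card_eq_fintype_card]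
  refine Nat.card_le_card_of_surjective
    (fun q : Quotient (Perm.SameCycle.setoid σ) => Quotient.lift c (fun x y hxy => ?_) q) ?_
  · have := mem_of_sameCycle (T := {z | c z = c x}) (by
      intro z hz
      show c (σ z) = c x
      rw [hinv]
      exact hz) rfl hxy
    exact this.symm
  · intro r
    obtain ⟨d, hd⟩ := hs r
    exact ⟨Quotient.mk _ d, hd⟩

variable {V : Type} {G : SimpleGraph V}

theorem turn_false (S : Scheme G) (d : G.Dart) : S.turn (d, false) = (S.rot d, false) := rfl

theorem turn_true (S : Scheme G) (d : G.Dart) : S.turn (S.rot d, true) = (d, true) := by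
  show (S.rot.symm (S.rot d), true) = (d, true)
  rw [Equiv.symm_apply_apply]

theorem turn_snd (S : Scheme G) (x : G.Dart × Bool) : (S.turn x).2 = x.2 := rfl

theorem turn_fst (S : Scheme G) (x : G.Dart × Bool) : (S.turn x).1.fst = x.1.fst := by
  obtain ⟨d, s | s⟩ := x
  · exact S.rot_fst d
  · have h1 := S.rot_fst (S.rot.symm d)
    rw [Equiv.apply_symm_apply] at h1
    exact h1.symm

theorem pass_fst (S : Scheme G) (x : G.Dart × Bool) : (S.pass x).1.fst = x.1.snd := rfl

theorem pass_pass (S : Scheme G) (x : G.Dart × Bool) : S.pass (S.pass x) = x :=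
  S.pass.symm_apply_apply x

theorem pass_ne (S : Scheme G) (x : G.Dart × Bool) : S.pass x ≠ x := by
  intro h
  have h1 : x.1.symm = x.1 := congrArg Prod.fst h
  exact x.1.symm_ne h1

section

variable [Fintype V]

/-- the darts at one vertex in one mode form one cycle -/
theorem turn_cycle (S : Scheme G) [Fintype (G.Dart × Bool)] [Finite G.Dart] {d d' : G.Dart}
    (h : d.fst = d'.fst) (s : Bool) : S.turn.SameCycle (d, s) (d', s) := by
  have h1 := S.cyclic d d' h
  have h2 := mem_of_sameCycle (σ := S.rot) (T := {e | S.turn.SameCycle (d, s) (e, s)}) (by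
    intro e he
    show S.turn.SameCycle (d, s) (S.rot e, s)
    cases s with
    | false =>
      have h3 : S.turn.SameCycle (e, false) (S.turn (e, false)) :=
        Perm.sameCycle_apply_right.2 (Perm.SameCycle.refl _ _)
      rw [turn_false] at h3
      exact he.trans h3
    | true =>
      have h3 : S.turn.SameCycle (S.rot e, true) (S.turn (S.rot e, true)) :=
        Perm.sameCycle_apply_right.2 (Perm.SameCycle.refl _ _)
      rw [turn_true] at h3
      exact he.trans h3.symm) (Perm.SameCycle.refl _ _) h1
  exact h2


theorem fix_vertex (S : Scheme G) [Fintype G.Dart] {f : G.Dart × Bool → ℚ} (hf : f ∈ Fix S.turn)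
    {d d' : G.Dart} (h : d.fst = d'.fst) (s : Bool) : f (d', s) = f (d, s) := by
  have := mem_of_sameCycle (T := {z | f z = f (d, s)}) (by
    intro z hz
    show f (S.turn z) = f (d, s)
    rw [hf z]
    exact hz) rfl (turn_cycle S h s)
  exact this

open Classical in
/-- functions invariant under everything -/
theorem comp_le (S : Scheme G) [Fintype G.Dart] :
    finrank ℚ (Fix S.turn ⊓ Fix S.pass : Submodule ℚ (G.Dart × Bool → ℚ)) ≤
      2 * Nat.card {C : G.ConnectedComponent // ∃ d : G.Dart, G.connectedComponentMk d.fst = C} := by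
  haveI : Fintype G.ConnectedComponent := Fintype.ofFinite _
  haveI : Fintype {C : G.ConnectedComponent // ∃ d : G.Dart, G.connectedComponentMk d.fst = C} :=
    Fintype.ofFinite _
  let root : {C : G.ConnectedComponent // ∃ d : G.Dart, G.connectedComponentMk d.fst = C} → G.Dart :=
    fun C => C.2.choose
  have hroot : ∀ C, G.connectedComponentMk (root C).fst = C.1 := fun C => C.2.choose_spec
  have h1 := finrank_le_eval
    (R := {C : G.ConnectedComponent // ∃ d : G.Dart, G.connectedComponentMk d.fst = C} × Bool)
    (Fix S.turn ⊓ Fix S.pass : Submodule ℚ (G.Dart × Bool → ℚ)) ⊥ (fun r => (root r.1, r.2)) (by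
      rintro f ⟨hf1, hf2⟩ h
      rw [Submodule.mem_bot]
      have hP : ∀ u v : V, G.Reachable u v → (∀ d : G.Dart, d.fst = u → ∀ s, f (d, s) = 0) →
          (∀ d : G.Dart, d.fst = v → ∀ s, f (d, s) = 0) := by
        intro u v huv
        obtain ⟨w⟩ := huv
        induction w with
        | nil => exact fun h => h
        | cons hadj _ ih =>
          rename_i u v w _
          intro hu
          apply ih
          intro d hd s
          let d0 : G.Dart := ⟨(v, u), hadj.symm⟩
          have e1 : f (d, s) = f (d0, s) := fix_vertex S hf1 (show d0.fst = d.fst from hd.symm) s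
          have e2 : f (S.pass (d0, s)) = f (d0, s) := hf2 (d0, s)
          rw [e1, ← e2]
          exact hu d0.symm rfl _
      funext ⟨d, s⟩
      have hr := hroot ⟨G.connectedComponentMk d.fst, d, rfl⟩
      have hr' := SimpleGraph.ConnectedComponent.exact hr
      refine hP _ _ hr' ?_ d rfl s
      intro d' hd' s'
      have e3 := h (⟨G.connectedComponentMk d.fst, d, rfl⟩, s')
      rw [← fix_vertex S hf1 hd' s']
      exact e3)
  rw [finrank_bot, zero_add, Fintype.card_prod, Fintype.card_bool] at h1
  rw [Nat.card_eq_fintype_card]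
  omega

open Classical in
theorem vert_le (S : Scheme G) [Fintype G.Dart] :
    2 * Nat.card {v : V // ∃ w, G.Adj v w} ≤ numOrbits S.turn := by
  have h1 := card_le_numOrbits (R := {v : V // ∃ w, G.Adj v w} × Bool) S.turn
    (fun x => (⟨x.1.fst, x.1.snd, x.1.adj⟩, x.2)) (by
      intro x
      rw [Prod.mk.injEq]
      exact ⟨Subtype.ext (turn_fst S x), turn_snd S x⟩) (by
      rintro ⟨⟨v, w, h⟩, s⟩
      exact ⟨(⟨(v, w), h⟩, s), rfl⟩)
  rw [Fintype.card_prod, Fintype.card_bool] at h1
  rw [Nat.card_eq_fintype_card]
  omega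

open Classical in
theorem top_ineq (S : Scheme G) [Fintype G.Dart] {g : ℕ} (hS : S.eulerGenus ≤ g) :
    4 * finrank ℚ (Fix S.turn ⊓ Fix S.pass : Submodule ℚ (G.Dart × Bool → ℚ)) +
      Fintype.card (G.Dart × Bool) ≤
      4 * g + 2 * numOrbits S.turn + 2 * numOrbits (S.turn * S.pass) := by
  have h1 := comp_le S
  have h2 := vert_le S
  have h3 : 2 * S.numFaces ≤ numOrbits (S.turn * S.pass) := by
    unfold Scheme.numFaces numOrbits
    omega
  have h4 : Fintype.card (G.Dart × Bool) = 4 * G.edgeSet.ncard := by
    rw [Fintype.card_prod, Fintype.card_bool]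
    have h5 := G.dart_card_eq_twice_card_edges
    have h6 : G.edgeSet.ncard = G.edgeFinset.card := by
      rw [← SimpleGraph.coe_edgeFinset, Set.ncard_coe_finset]
    rw [h6]
    have h7 : Fintype.card G.Dart = 2 * G.edgeFinset.card := by
      convert h5
    rw [h7]
    ring
  unfold Scheme.eulerGenus at hS
  rw [h4]
  omega

end

end Pool.Agent.V11120.Imp
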