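import Pool.Agent.V11120.Imp.Surf

/-!
# Faces of a subgraph
-/

set_option autoImplicit false
set_option linter.unusedSectionVars false

namespace Pool.Agent.V11120.Imp

open Equiv Module Pool.Agent.V11120.Maps

variable {V : Type} [Fintype V] {G : SimpleGraph V}

/-- the subgraph induced by `X`, with all vertices -/
def sub (G : SimpleGraph V) (X : Finset V) : SimpleGraph V where
  Adj u v := u ∈ X ∧ v ∈ X ∧ G.Adj u v
  symm := ⟨fun _ _ h => ⟨h.2.1, h.1, h.2.2.symm⟩⟩
  loopless := ⟨fun _ h => h.2.2.ne rfl⟩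

theorem sub_le (X : Finset V) : sub G X ≤ G := fun _ _ h => h.2.2

open Classical in
/-- the darts of the subgraph in both modes -/
noncomputable def KK (G : SimpleGraph V) [Fintype G.Dart] (X : Finset V) : Finset (G.Dart × Bool) :=
  Finset.univ.filter (fun x => x.1.fst ∈ X ∧ x.1.snd ∈ X)

theorem mem_KK [Fintype G.Dart] {X : Finset V} {x : G.Dart × Bool} :
    x ∈ KK G X ↔ x.1.fst ∈ X ∧ x.1.snd ∈ X := by
  simp [KK]

theorem pass_KK [Fintype G.Dart] (S : Scheme G) (X : Finset V) :
    ∀ x ∈ KK G X, S.pass x ∈ KK G X := by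
  intro x hx
  rw [mem_KK] at hx ⊢
  exact ⟨hx.2, hx.1⟩

open Classical in
theorem card_KK [Fintype G.Dart] (X : Finset V) :
    (KK G X).card = 2 * ∑ v ∈ X, (Nb (sub G X) v).card := by
  have h1 : ((KK G X)).card = ∑ v ∈ X, ((KK G X).filter (fun x => x.1.fst = v)).card :=
    Finset.card_eq_sum_card_fiberwise (fun x hx => (mem_KK.1 hx).1)
  rw [h1, Finset.mul_sum]
  refine Finset.sum_congr rfl fun v hv => ?_
  have h2 : (Nb (sub G X) v ×ˢ (Finset.univ : Finset Bool)).card = 2 * (Nb (sub G X) v).card := by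
    rw [Finset.card_product, Finset.card_univ, Fintype.card_bool, mul_comm]
  rw [← h2]
  refine Finset.card_bij (fun x _ => (x.1.snd, x.2)) ?_ ?_ ?_
  · intro x hx
    rw [Finset.mem_filter, mem_KK] at hx
    rw [Finset.mem_product]
    refine ⟨mem_Nb.2 ⟨hv, hx.1.2, ?_⟩, Finset.mem_univ _⟩
    rw [← hx.2]
    exact x.1.adj
  · intro x hx y hy hxy
    rw [Finset.mem_filter] at hx hy
    rw [Prod.mk.injEq] at hxy
    refine Prod.ext (SimpleGraph.Dart.ext _ _ ?_) hxy.2
    exact Prod.ext (hx.2.trans hy.2.symm) hxy.1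
  · rintro ⟨w, s⟩ hw
    rw [Finset.mem_product, mem_Nb] at hw
    refine ⟨(⟨(v, w), hw.1.2.2⟩, s), ?_, rfl⟩
    rw [Finset.mem_filter, mem_KK]
    exact ⟨⟨hv, hw.1.2.1⟩, rfl⟩

/-- one step of the face permutation of the subgraph -/
theorem face_step (S : Scheme G) [Fintype G.Dart] (X : Finset V)
    (h2 : ∀ v ∈ X, 2 ≤ (Nb (sub G X) v).card) {x : G.Dart × Bool} (hx : x ∈ KK G X) {m : ℕ}
    (hm : 0 < m)
    (hj : ∀ j, 0 < j → j < m →
      ((S.turn * restr S.pass (pass_pass S) (KK G X) (pass_KK S X)) ^ j) x ∉ KK G X)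
    (hend : ((S.turn * restr S.pass (pass_pass S) (KK G X) (pass_KK S X)) ^ m) x ∈ KK G X) :
    (((S.turn * restr S.pass (pass_pass S) (KK G X) (pass_KK S X)) ^ m) x).1.fst = x.1.snd ∧
    (((S.turn * restr S.pass (pass_pass S) (KK G X) (pass_KK S X)) ^ m) x).1 ≠ x.1.symm := by
  classical
  set ω := S.turn * restr S.pass (pass_pass S) (KK G X) (pass_KK S X) with hω
  have key : ∀ j, 0 < j → j ≤ m → (ω ^ j) x = (S.turn ^ j) (S.pass x) := by
    intro j
    induction j with
    | zero => intro h; omega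
    | succ j ih =>
      intro _ hjm
      rcases Nat.eq_zero_or_pos j with h0 | h0
      · subst h0
        rw [zero_add, pow_one, pow_one, hω, Perm.mul_apply, restr_mem hx]
      · calc (ω ^ (j + 1)) x = ω ((ω ^ j) x) := by rw [pow_succ', Perm.mul_apply]
          _ = S.turn ((ω ^ j) x) := by
            have h9 := hj j h0 (by omega)
            have h10 : ∀ y, y ∉ KK G X → ω y = S.turn y := by
              intro y hy
              rw [hω, Perm.mul_apply, restr_notMem hy]
            exact h10 _ h9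
          _ = (S.turn ^ (j + 1)) (S.pass x) := by
            rw [ih h0 (by omega), pow_succ', Perm.mul_apply]
  have hfst : ∀ j : ℕ, ∀ y : G.Dart × Bool, ((S.turn ^ j) y).1.fst = y.1.fst ∧
      ((S.turn ^ j) y).2 = y.2 := by
    intro j
    induction j with
    | zero => intro y; exact ⟨rfl, rfl⟩
    | succ j ih =>
      intro y
      rw [pow_succ', Perm.mul_apply, turn_fst, turn_snd]
      exact ih y
  rw [key m hm le_rfl]
  refine ⟨(hfst m _).1.trans (pass_fst S x), ?_⟩
  intro he
  -- then the cycle of `pass x` contains only one dart of the subgraph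
  have he' : (S.turn ^ m) (S.pass x) = S.pass x := Prod.ext he (hfst m _).2
  have hxs : x.1.snd ∈ X := (mem_KK.1 hx).2
  have hc := h2 _ hxs
  have hmem : x.1.fst ∈ Nb (sub G X) x.1.snd :=
    mem_Nb.2 ⟨hxs, (mem_KK.1 hx).1, x.1.adj.symm⟩
  have h3 : 0 < ((Nb (sub G X) x.1.snd).erase x.1.fst).card := by
    rw [Finset.card_erase_of_mem hmem]
    omega
  obtain ⟨w, hw⟩ := Finset.card_pos.1 h3
  rw [Finset.mem_erase, mem_Nb] at hw
  let d' : G.Dart := ⟨(x.1.snd, w), hw.2.2.2⟩
  have hcyc : S.turn.SameCycle (S.pass x) (d', (S.pass x).2) :=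
    turn_cycle S (d := (S.pass x).1) (d' := d') rfl _
  obtain ⟨i, hi⟩ := hcyc.exists_nat_pow_eq
  have hper : ∀ q : ℕ, (S.turn ^ (m * q)) (S.pass x) = S.pass x := by
    intro q
    induction q with
    | zero => simp
    | succ q ih => rw [Nat.mul_succ, pow_add, Perm.mul_apply, he', ih]
  have hi' : (S.turn ^ (i % m)) (S.pass x) = (d', (S.pass x).2) := by
    rw [← hi]
    conv_rhs => rw [← Nat.mod_add_div i m]
    rw [pow_add, Perm.mul_apply, hper]
  rcases Nat.eq_zero_or_pos (i % m) with h0 | h0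
  · rw [h0, pow_zero, Perm.one_apply] at hi'
    have h5 : (S.pass x).1 = d' := congrArg Prod.fst hi'
    have h6 : x.1.symm = d' := h5
    have h7 : x.1.fst = w := congrArg (fun e : G.Dart => e.snd) h6
    exact hw.1 h7.symm
  · have hlt := Nat.mod_lt i hm
    apply hj (i % m) h0 hlt
    rw [key _ h0 hlt.le, hi', mem_KK]
    exact ⟨hxs, hw.2.2.1⟩

theorem main_ineq (S : Scheme G) {g : ℕ} (hS : S.eulerGenus ≤ g) {ℓ : ℕ}
    (hg : (ℓ : ℕ∞) ≤ G.egirth) (X : Finset V) (h2 : ∀ v ∈ X, 2 ≤ (Nb (sub G X) v).card) :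
    ∃ f : ℕ, ∑ v ∈ X, (Nb (sub G X) v).card ≤ 2 * g + 2 * X.card + f ∧
      ℓ * f ≤ 2 * ∑ v ∈ X, (Nb (sub G X) v).card := by
  classical
  letI : Fintype G.Dart := Fintype.ofFinite _
  set α := restr S.pass (pass_pass S) (KK G X) (pass_KK S X) with hα
  set ω := S.turn * α with hω
  obtain ⟨ρ, hρ1, hρ2⟩ := exists_return ω (↑(KK G X) : Set (G.Dart × Bool))
  refine ⟨numOrbits ρ, ?_, ?_⟩
  · have h3 := top_ineq S hS
    have h4 := del (σ := S.turn) (pass_pass S) (pass_ne S) (Fintype.card (G.Dart × Bool)) (KK G X)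
      (pass_KK S X) (by omega)
    rw [← hα, ← hω, card_KK] at h4
    -- vertices
    have h5 : numOrbits S.turn ≤
        finrank ℚ (Fix S.turn ⊓ Fix α : Submodule ℚ (G.Dart × Bool → ℚ)) + 2 * X.card := by
      have hex : ∀ v : X, ∃ d : G.Dart, d.fst = v.1 := by
        intro v
        have h6 : 0 < (Nb (sub G X) v.1).card := by
          have := h2 v.1 v.2
          omega
        obtain ⟨w, hw⟩ := Finset.card_pos.1 h6
        rw [mem_Nb] at hw
        exact ⟨⟨(v.1, w), hw.2.2⟩, rfl⟩
      choose root hroot using hex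
      have h6 := finrank_le_eval (R := X × Bool) (Fix S.turn)
        (Fix S.turn ⊓ Fix α : Submodule ℚ (G.Dart × Bool → ℚ)) (fun r => (root r.1, r.2)) (by
          intro f hf h
          have h7 : ∀ x : G.Dart × Bool, x.1.fst ∈ X → f x = 0 := by
            intro x hx
            have h8 := h (⟨x.1.fst, hx⟩, x.2)
            have h9 := fix_vertex S hf (hroot ⟨x.1.fst, hx⟩) x.2
            rw [← h8]
            exact h9
          refine ⟨hf, ?_⟩
          intro x
          by_cases hx : x ∈ KK G X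
          · rw [hα, restr_mem hx, h7 x (mem_KK.1 hx).1, h7 _ (mem_KK.1 (pass_KK S X x hx)).1]
          · rw [hα, restr_notMem hx])
      rw [finrank_Fix, Fintype.card_prod, Fintype.card_bool, Fintype.card_coe] at h6
      omega
    have h6 : numOrbits ω ≤
        finrank ℚ (Fix S.turn ⊓ Fix α : Submodule ℚ (G.Dart × Bool → ℚ)) + numOrbits ρ := by
      haveI : Fintype (Quotient (Perm.SameCycle.setoid ρ)) := Fintype.ofFinite _
      have h7 := finrank_le_eval (R := Quotient (Perm.SameCycle.setoid ρ)) (Fix ω)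
        (Fix S.turn ⊓ Fix α : Submodule ℚ (G.Dart × Bool → ℚ)) (fun q => (q.out : G.Dart × Bool)) (by
          intro f hf h
          have h8 : ∀ x ∈ KK G X, f x = 0 := by
            intro x hx
            let x' : (↑(KK G X) : Set (G.Dart × Bool)) := ⟨x, hx⟩
            have h9 := h (Quotient.mk _ x')
            have h10 : ρ.SameCycle (Quotient.out (Quotient.mk (Perm.SameCycle.setoid ρ) x')) x' :=
              Quotient.exact (s := Perm.SameCycle.setoid ρ)
                (Quotient.out_eq (Quotient.mk (Perm.SameCycle.setoid ρ) x'))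
            have h11 := mem_of_sameCycle (σ := ρ) (T := {y | f y.1 = 0}) (by
              intro y hy
              obtain ⟨m, _, hm, _⟩ := hρ1 y
              show f (ρ y).1 = 0
              rw [hm, ← zpow_natCast, Fix_zpow hf]
              exact hy) h9 h10
            exact h11
          have hmul : ∀ y, f (S.turn (α y)) = f y := hf
          have h12 : f ∈ Fix S.turn := by
            intro x
            by_cases hx : x ∈ KK G X
            · have h13 := hmul (S.pass x)
              rw [hα, restr_mem (pass_KK S X x hx), pass_pass] at h13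
              rw [h13, h8 _ (pass_KK S X x hx), h8 x hx]
            · have h13 := hmul x
              rw [hα, restr_notMem hx] at h13
              exact h13
          refine ⟨h12, ?_⟩
          intro x
          by_cases hx : x ∈ KK G X
          · rw [hα, restr_mem hx, h8 x hx, h8 _ (pass_KK S X x hx)]
          · rw [hα, restr_notMem hx])
      rw [finrank_Fix] at h7
      rw [numOrbits, numOrbits, Nat.card_eq_fintype_card (α := Quotient (Perm.SameCycle.setoid ρ))]
      exact h7
    omega
  · have h3 : ℓ * numOrbits ρ ≤ Fintype.card (↑(KK G X) : Set (G.Dart × Bool)) := by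
      apply card_ge_of_period
      intro x L hL hx
      have hstep : ∀ y : (↑(KK G X) : Set (G.Dart × Bool)),
          (ρ y).1.1.fst = y.1.1.snd ∧ (ρ y).1.1 ≠ y.1.1.symm := by
        intro y
        obtain ⟨m, hm0, hm, hmj⟩ := hρ1 y
        have := face_step S X h2 (x := y.1) y.2 hm0 hmj (by
          rw [← hm]
          exact (ρ y).2)
        rw [← hα, ← hω, ← hm] at this
        exact this
      refine girth_le_period hg (fun i => ((ρ ^ i) x).1.1.fst) ?_ ?_ hL ?_
      · intro i
        show G.Adj ((ρ ^ i) x).1.1.fst ((ρ ^ (i + 1)) x).1.1.fst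
        rw [pow_succ', Perm.mul_apply, (hstep _).1]
        exact ((ρ ^ i) x).1.1.adj
      · intro i h
        have h' : ((ρ ^ i) x).1.1.fst = ((ρ ^ (i + 2)) x).1.1.fst := h
        rw [pow_succ', Perm.mul_apply, (hstep _).1, pow_succ', Perm.mul_apply] at h'
        apply (hstep ((ρ ^ i) x)).2
        refine SimpleGraph.Dart.ext _ _ (Prod.ext (hstep ((ρ ^ i) x)).1 h'.symm)
      · show ((ρ ^ L) x).1.1.fst = ((ρ ^ 0) x).1.1.fst
        rw [hx, pow_zero, Perm.one_apply]
    rw [← card_KK]
    have h4 : Fintype.card (↑(KK G X) : Set (G.Dart × Bool)) = (KK G X).card := by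
      rw [← Nat.card_eq_fintype_card, Nat.card_coe_set_eq, Set.ncard_coe_finset]
    omega

end Pool.Agent.V11120.Imp
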